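import Pool.Agent.Helper64.LN.GoalsB

set_option autoImplicit false

/-! Project LN: the action on the curves. -/

open Topology Filter Set Metric UpperHalfPlane
open scoped MatrixGroups

namespace Pool.Agent.Helper27.LN

open Pool.Agent.Helper64.LN

lemma cj_cj (F G : ℍ ≃ₜ ℍ) (y : Set (ℍ ≃ₜ ℍ)) : cj F (cj G y) = cj (F * G) y := by
  ext a
  change G⁻¹ * (F⁻¹ * a * F) * G ∈ y ↔ (F * G)⁻¹ * a * (F * G) ∈ y
  rw [show (F * G)⁻¹ * a * (F * G) = G⁻¹ * (F⁻¹ * a * F) * G by group]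

lemma cj_one (y : Set (ℍ ≃ₜ ℍ)) : cj 1 y = y := by
  ext a
  change (1 : ℍ ≃ₜ ℍ)⁻¹ * a * 1 ∈ y ↔ a ∈ y
  simp

section
variable {X : Type*} [TopologicalSpace X]

lemma Lif_mul {u : ℍ → X} {f g : X ≃ₜ X} {F G : ℍ ≃ₜ ℍ} (hF : Lif u f F) (hG : Lif u g G) :
    Lif u (f * g : X ≃ₜ X) (F * G) := by
  intro z
  change u (F (G z)) = f (g (u z))
  rw [hF, hG]

lemma Lif_inv {u : ℍ → X} {f : X ≃ₜ X} {F : ℍ ≃ₜ ℍ} (hF : Lif u f F) :
    Lif u (f⁻¹ : X ≃ₜ X) F⁻¹ := by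
  intro z
  apply f.injective
  rw [← hF]
  change u (F (F.symm z)) = f (f.symm (u z))
  rw [F.apply_symm_apply, f.apply_symm_apply]

omit [TopologicalSpace X] in
lemma Y0_conj {u : ℍ → X} {γ a g : ℍ ≃ₜ ℍ} (hg : g ∈ deck u) (ha : a ∈ Y0 u γ) :
    g * a * g⁻¹ ∈ Y0 u γ := by
  obtain ⟨h, hh, e | e⟩ := ha
  · exact ⟨g * h, (deck u).mul_mem hg hh, Or.inl (by rw [e]; group)⟩
  · exact ⟨g * h, (deck u).mul_mem hg hh, Or.inr (by rw [e]; group)⟩

end

/-- RHO. -/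
theorem goalRHO.{v} (hL1 : GoalL1.{v}) (hL3 : GoalL3.{v}) : GoalRHO.{v} := by
  intro X _ _ p P u γ hu _
  obtain ⟨hid, -, hnorm⟩ := hL3 X _ u hu
  -- lifts exist
  have hex : ∀ f : FixP p P, ∃ F : ℍ ≃ₜ ℍ, Lif u (f : X ≃ₜ X) F := by
    intro f
    have hz : u UpperHalfPlane.I ∈ (insert p P)ᶜ := by
      rw [← hu.range]
      exact mem_range_self _
    have hfz : (f : X ≃ₜ X) (u UpperHalfPlane.I) ∈ (insert p P)ᶜ := by
      rintro (h | h)
      · apply hz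
        left
        have h2 : (f : X ≃ₜ X) p = p := f.2.1
        exact (f : X ≃ₜ X).injective (h.trans h2.symm)
      · apply hz
        right
        exact (f.2.2 _).1 h
    rw [← hu.range] at hfz
    obtain ⟨w, hw⟩ := hfz
    obtain ⟨F, hF, -⟩ := hL1 X p P u hu f f.2 UpperHalfPlane.I w hw
    exact ⟨F, hF⟩
  choose Ft hFt using hex
  -- independence of the lift
  have hind : ∀ (f : X ≃ₜ X) (F F' : ℍ ≃ₜ ℍ), Lif u f F → Lif u f F' →
      ∀ y ∈ YY p P u γ, cj F y = cj F' y := by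
    intro f F F' hF hF' y hy
    obtain ⟨f0, hf0, F0, hF0, rfl⟩ := hy
    have hG : F⁻¹ * F' ∈ deck u := by
      apply hid
      intro z
      have h1 := (Lif_mul (Lif_inv hF) hF') z
      rw [h1, inv_mul_cancel]
      rfl
    have hg := (hnorm f0 F0 hF0).2 _ hG
    have hg' := (deck u).inv_mem hg
    rw [cj_cj, cj_cj]
    ext a
    change (F * F0)⁻¹ * a * (F * F0) ∈ Y0 u γ ↔ (F' * F0)⁻¹ * a * (F' * F0) ∈ Y0 u γ
    constructor
    · intro ha
      have h1 := Y0_conj hg' ha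
      convert h1 using 1
      group
    · intro ha
      have h1 := Y0_conj hg ha
      convert h1 using 1
      group
  have hmem : ∀ (f : FixP p P) (y : YY p P u γ), cj (Ft f) y ∈ YY p P u γ := by
    intro f y
    obtain ⟨f0, hf0, F0, hF0, hy⟩ := y.2
    refine ⟨f * f0, (FixP p P).mul_mem f.2 hf0, Ft f * F0, Lif_mul (hFt f) hF0, ?_⟩
    rw [hy, cj_cj]
  let act : MulAction (FixP p P) (YY p P u γ) :=
    { smul := fun f y => ⟨cj (Ft f) y, hmem f y⟩
      one_smul := by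
        intro y
        apply Subtype.ext
        change cj (Ft 1) y = y
        have h1 : Lif u ((1 : FixP p P) : X ≃ₜ X) (1 : ℍ ≃ₜ ℍ) := fun z => rfl
        rw [hind _ _ _ (hFt 1) h1 y y.2, cj_one]
      mul_smul := by
        intro f g y
        apply Subtype.ext
        change cj (Ft (f * g)) y = cj (Ft f) (cj (Ft g) y)
        have h1 : Lif u ((f * g : FixP p P) : X ≃ₜ X) (Ft f * Ft g) :=
          Lif_mul (hFt f) (hFt g)
        rw [hind _ _ _ (hFt (f * g)) h1 y y.2, cj_cj] }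
  refine ⟨MulAction.toPermHom (FixP p P) (YY p P u γ), ?_⟩
  intro f F hF y
  change cj (Ft f) y = cj F y
  exact hind _ _ _ (hFt f) hF y y.2

end Pool.Agent.Helper27.LN
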